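import Pool.Agent.N276.MB.FinalB
import Pool.Agent.N276.MB.Arc
import Pool.Agent.N276.MB.ArcIso
import Pool.Agent.N276.MB.CrossList
import Pool.Agent.N276.MB.Erg
import Pool.Agent.N276.MB.GreenAll
import Pool.Agent.N276.MB.GreenBasic
import Pool.Agent.N276.MB.GreenRoot
import Pool.Agent.N276.MB.Iso0
import Pool.Agent.N276.MB.Meas
import Pool.Agent.N276.MB.NonAm
import Pool.Agent.N276.MB.OneEnd
import Pool.Agent.N276.MB.Path
import Pool.Agent.N276.MB.Plane
import Pool.Agent.N276.MB.Pres
import Pool.Agent.N276.MB.Reroot
import Pool.Agent.N276.MB.Rev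
import Pool.Agent.N276.MB.Simply
import Pool.Agent.N276.MB.TreeBasic
import Pool.Agent.N276.MB.Window

/-!
# A one-ended, invariantly non-amenable reversible random plane map whose Martin boundary is
# disconnected

The parts of the proof were written by helpers 415, 455, 134, 692, 9, 400, 568, 603, 861, 507, 199,
519, 99, 49, 364, 73, 403, 427, 55 and 438; construction, definitions and assembly by helper276.
-/

set_option autoImplicit false

open MeasureTheory Set Filter Topology
open scoped ENNReal

namespace Pool.Agent.Results.MP_609849_pr.MartinBoundaryNotCircle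

open Pool.Agent.N276.MB

/-- There is a reversible random rooted plane map which is almost surely one-ended and transient,
is not invariantly amenable, and whose Martin boundary is almost surely disconnected; in particular
the Martin boundary is almost surely not homeomorphic to the circle. -/
theorem result : ∃ (V Ω : Type) (_ : Countable V) (_ : MeasurableSpace Ω) (P : Measure Ω)
    (_ : IsProbabilityMeasure P) (X : RandomMap V Ω P),
    Reversible P X.M (fun _ => ∅) X.r ∧
    (∀ᵐ ω ∂P, (X.M ω).OneEnded) ∧
    (∀ᵐ ω ∂P, ∀ x ∈ (X.M ω).D, ∀ y ∈ (X.M ω).D, (X.M ω).green x y ≠ ⊤) ∧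
    ¬ InvariantlyAmenable X ∧
    ∀ᵐ ω ∂P, ¬ IsPreconnected ((X.M ω).martinBoundary (X.r ω)) ∧
      ¬ Nonempty ((X.M ω).martinBoundary (X.r ω) ≃ₜ Circle) := by
  have hS := arc_simply arc_valid tree_basic
  have hR := reroot tree_basic
  have hW := window tree_basic pres rot_iso flip_iso
  have hGA := good_ae tree_basic pres rot_iso flip_iso hR hW
  have hGR := green_root arc_valid arc_vertex tree_basic
  have hG := green_all arc_valid tree_basic arc_iso hR green_iso green_max hGR
  have hRev := reversible arc_valid arc_vertex arc_iso tree_basic rot_iso flip_iso pres hGA meas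
  obtain ⟨V, Ω, h1, h2, P, h3, X, h4, h5, h6, h7⟩ :=
    finalB arc_valid arc_vertex tree_basic hG cross (cross_list arc_valid tree_basic)
      (path arc_valid arc_vertex tree_basic green_step) prob hGA (event prob hW) meas hRev
      (arc_plane arc_valid hS tree_basic) (arc_oneended arc_valid tree_basic)
      (nonamenable ergodic) (iso0 arc_valid arc_vertex tree_basic) (topB green_step) hR arc_iso
      green_iso pres rot_iso
  exact ⟨V, Ω, h1, h2, P, h3, X, h4, h5.mono fun _ h => h.1, h5.mono fun _ h => h.2, h6, h7⟩

end Pool.Agent.Results.MP_609849_pr.MartinBoundaryNotCircle
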